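import Pool.Agent.KS6_28.BF.Main

/-!
# The motivic t-structure, middle weights, and filtrations of Bloch and Beilinson

## One field

Let `K` be a field. We show that the following are equivalent.

(1) `DM_c(K)` has a t-structure as in the problem.

(2) The Künneth standard conjecture (C) holds over `K`, homological and numerical equivalence agree (D), and
there are filtrations of Bloch and Beilinson on all motivic cohomology groups `H^i(V, ℚ(n))`, for `V` smooth and
projective over `K`: a descending filtration `F`, functorial for correspondences, with `F^0` everything,
`F^1` the classes which are zero in `ℓ`-adic cohomology, `F^N = 0` for large `N`, and such that the action of correspondences on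
`F^ν / F^(ν + 1)` is determined by the action on the cohomology in degree `i - ν`. (Compatibility with
products is not required.)

(3) (C), (D), such a filtration on the Chow groups `CH^n(V) = H^(2n)(V, ℚ(n))` only, and the following
geometric condition: for `i < 2n`, the group `H^i(V, ℚ(n))` is generated by the images of the groups `H^i(Y, ℚ(n))`
under correspondences, for varieties `Y` of dimension less than `i`.

(4) (C), and for `i ≤ d = dim V` a numerically trivial class in `H^i(V, ℚ(n))` of weight `d` is
zero. (A class `f` is of weight `d` if `δ f = d f` for a correspondence `δ` which acts on
`H^j(V, ℚ_ℓ)` as multiplication by `j`, for all `j`.)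

## All fields

Let now `K` be in a class of fields which with `K` contains the field `K(t)` of rational functions,
for instance all fields of characteristic `p`, or the fields `k(t_1, …, t_r)` for all `r ≥ 0`. We show
that the following are equivalent.

(1) For all `K` in the class, `DM_c(K)` has a t-structure as in the problem.

(2) For all `K` in the class, Chow motives are direct sums of Chow motives with realisations in
one degree, and for a Chow motive `X` in degree `d`, numerically trivial elements of `Hom(1, X[d])`
are zero.

(3) For all `K` in the class, (C) holds, and numerically trivial classes of weight `d = dim V` in `H^d(V, ℚ(n))`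
are zero.

(4) For all `K` in the class, (C), (D), there is a filtration of Bloch and Beilinson on the Chow groups, and: if `d = dim V < 2n`, the
group `H^d(V, ℚ(n))` is generated by the images of the groups `H^d(Y, ℚ(n))` under correspondences, for varieties `Y`
of dimension less than `d`.

A t-structure on `DM_c(K)` requires `Hom(1, X[m]) = 0` if `X` is a Chow motive in degree `d > m` (for
`X = 1(n)[2n]`: the conjecture of Beilinson and Soulé for `K`), and such a condition is part of the
criteria in the literature (Beilinson, Hanamura) and of the earlier criterion `PureCriterion`. In the
second theorem there is no such condition: for `V = Spec K` the conditions (3) and (4) say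
`H^0(K, ℚ(n)) = 0` for `n > 0`, and in general only `H^d(V, ℚ(n))` for `d = dim V` occurs.

That (1) implies (2) for one field is due to Beilinson and Jannsen, and (2) implies
(1) is in the spirit of a theorem of Hanamura.

## Properties used

`Motives Λ` is from the earlier result `PrimeFieldsSuffice`: a rigid symmetric `ℚ`-linear tensor
triangulated category with realisations `R ℓ` with values in categories with a bounded t-structure, with
`End(1) = ℚ`. `Λ` is the set of primes different from the characteristic. `Varieties` lists the
smooth projective varieties `V` over (the perfect closure of) `K`, of pure dimension, and the objects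
`obj V n = h(V)(n)[2n]`, so that `Hom(1, (obj V n)[m]) = H^{2n + m}(V, ℚ(n))`. The following properties
are theorems for all fields:

* `setup`: the properties of Chow motives (`Setup`, from `PureCriterion`): duality, orthogonality
  `Hom(X, Y[m]) = 0` for `m > 0`, generation, and finiteness of the trace form;
* `degrees`, `tate_deg`, `tate_inv`, `twist`: the cohomology of `V` is in degrees `0, …, 2d`, and
  `1(1)[2]` is invertible and has its realisations in degree `-2`;
* `square`: Poincaré duality and the Künneth formula `h(V) ⊗ h(V)^∨ = h(V × V)(d)[2d]`;
* `hyperplane`: the hard Lefschetz theorem (Deligne), with the theorem of Bertini (over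
  finite fields: Gabber, Poonen): for a smooth intersection `Y` of `i` ample hypersurfaces, of codimension
  `i`, the composition of the restriction `h(V) ⟶ h(Y)` and the direct image `h(Y) ⟶ h(V)(i)[2i]` is the
  product with the class of `Y`, hence an isomorphism from `H^{d - i}` to `H^{d + i}(i)`;
* `tensor`, `dual`: the Künneth formula and duality for the realisations of motives;
* `NoClasses`: for `i ≠ 2n` the map from `H^i(V, ℚ(n))` to `H^i(V, ℚ_ℓ(n))` (cohomology over the
  algebraic closure) is zero. Indeed a class is defined over a finitely generated subfield of `K`, and
  then its image is invariant under the Galois group, but `H^i(V, ℚ_ℓ(n))` is pure of weight `i - 2n ≠ 0`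
  (Deligne);
* `IsRational`: base change from `K` to `K(t)` (`pull`) is a tensor functor, preserves Chow motives and does
  not change the realisations up to restriction to a subgroup of the Galois group; and the residue at
  `t = 0`, which is the map `Hom(1, Z(1)[1]) ⟶ Hom(1, Z)` of the localisation sequence, from
  motives over `K(t)` to motives over `K`, is a left inverse to the product with the class of `t` in
  `Hom(1, 1(1)[1]) = K(t)^* ⊗ ℚ`. So if `{t} f = 0`, then `f = 0`;
* `PreservesDim`: the base change of `V` to `K(t)` has the dimension of `V`.

## Proof

*Decompositions.* Let `X` be a Chow motive with a degree operator `δ`, and let `f` in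
`Hom(1, X)` be numerically trivial with `δ f = 0`. Then `f = 0`: for summands of the middle cohomology
of a variety this is the condition on classes of weight `dim V`; if there is a filtration of
Bloch and Beilinson on Chow groups, then `f` is in `F^1`, and as `δ + ν` maps `F^ν` to `F^(ν + 1)`, it
is in all `F^ν`. We apply this to `X ⊗ X^∨`, which is a summand of `h(V × V)(d)[2d]`: an
endomorphism `e` of `X` which commutes with `δ` and is numerically trivial is zero.
In particular the polynomial `∏ (δ - i)` is zero, and `δ` gives a decomposition of `X` into Chow
motives in one degree, the category of which is semisimple in each degree. Using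
hyperplane sections one finds that a Chow motive `X` in degree `a` is zero or a direct summand of
`h(Y)(n)[2n]` with `dim Y - 2n = a`, so that `X` is a summand of the middle cohomology. This gives
(3) ⟹ (2) for all fields, and (4) ⟹ (1) for one field, with `PureCriterion`.

*Generation.* Assume (3) for one field. As above, `Hom(1, X) = 0` for `X` in degree `a > 0`, hence there are no
morphisms from Chow motives in degree `b` to Chow motives in degree `a > b`. By `PureCriterion` it
remains to show `Hom(1, X[m]) = 0` for `m < 0`, `m ≤ a`. We use induction on the dimension of `V`,
for summands `X` of `h(V)(n)[2n]`. Replace `V`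
by `Y`. By the condition, `f : 1 ⟶ X[m]` is a sum of compositions `1 ⟶ h(Y')(n)[2n][m] ⟶ X[m]` with
`dim Y' < 2n + m ≤ dim Y`. The summands of `h(Y')(n)[2n]` in degree `< a` have no morphisms to `X`, and
to those in degree `b ≥ a` the induction hypothesis applies: `f = 0`.

*All fields.* Let `X` be a Chow motive in degree `a`, `m < a`, `m ≤ 0` and `f : 1 ⟶ X[m]`.
Multiplication by `t` gives the morphism `{t} f : 1 ⟶ X(1)[m + 1]` over `K(t)`. Now `Y = X(1)[2]` is a
Chow motive in degree `a - 2`, so that `{t} f : 1 ⟶ Y[m - 1]`, and the difference between degree and shift
is `a - m - 1`. By induction on `a - m` the class `{t} f` is zero, and so is `f`. The case of a Chow motive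
`Y` in degree `e < 0` and of the group `Hom(1, Y[e])` follows from (2), since `Hom(Y[e], 1) = 0`; in the case (4) it is
treated as in the last paragraph, by an induction on the dimension in which all fields and all
differences occur.

*The t-structure implies the conditions.* `F^ν Hom(1, X[m])` is the group of the `f` such that the
composition of `f` and `g[m]` is zero for all morphisms `g : X ⟶ Y` to Chow motives `Y` in degree
`> m - ν`. A class `f` in `H^i(V, ℚ(n))`, `i < 2n`, is the sum of its components in the summands
`h^j(V)`. They are zero for `j ≥ i`. If `dim V ≥ i` and `j < i`, then `h^j(V)` is a direct summand of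
`h(Y)` for a linear section `Y` of dimension `j < i`. Finally let `f : 1 ⟶ X[m]` be
of weight `a ≥ m` and numerically trivial. One shows by descending induction on `b` that
`f` composed with `g : X ⟶ Y`, `Y` in degree `b`, is zero. If `b ≥ m` this follows from the
vanishing and from the equality of rational and numerical equivalence. If `b < m`, then `c = δ g - b g` has
realisation zero, so that its components on the summands of `X` in degree `≤ b` vanish, and `f c = 0`
by induction. But `f c = (a - b) f g`.
-/

set_option autoImplicit false

universe u v₁ v₂ u₁ u₂ w

namespace Pool.Agent.Results.MP_6d0ce9_ag.BlochBeilinson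

open Pool.Agent.KS6_13.PF (Motives)
open Pool.Agent.W492.MT (Kunneth)
open Pool.Agent.KS6_28.MW Pool.Agent.KS6_28.BF

/-- **The motivic t-structure, middle weights, and filtrations of Bloch and Beilinson.** The first
part is about each field `K` of a class of fields (which may consist of one field), the second part
about all fields of a class which is closed under `K ↦ K(t)`. -/
theorem result {Λ : Type w} [Nonempty Λ] {ι : Type u} {M : ι → Motives.{v₁, v₂, u₁, u₂} Λ}
    {G : ∀ K, Varieties.{u} (M K)} (hG : ∀ K, IsSmoothProj (G K))
    (hW : ∀ K, NoClasses (G K)) :
    (∀ K, List.TFAE [
      (M K).toRealised.HasMotivicTStructure,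
      KunnethC (G K) ∧ HomEqNum (G K) ∧ ∀ m, BlochBeilinson (G K) m,
      KunnethC (G K) ∧ HomEqNum (G K) ∧ BlochBeilinson (G K) 0 ∧ SmallDimension (G K),
      KunnethC (G K) ∧ MiddleWeights (G K)]) ∧
    ((∀ K, ∃ (K' : ι) (E : RationalData (G K) (G K')), IsRational E ∧ PreservesDim E) →
      List.TFAE [
        ∀ K, (M K).toRealised.HasMotivicTStructure,
        ∀ K, Kunneth (M K).R (M K).s (G K).Chow ∧ PureClasses (G K),
        ∀ K, KunnethC (G K) ∧ MiddleClasses (G K),
        ∀ K, KunnethC (G K) ∧ HomEqNum (G K) ∧ BlochBeilinson (G K) 0 ∧
          SmallDimensionMiddle (G K)]) :=
  ⟨fun K => single (hG K) (hW K), fun hE => all hG hE hW⟩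

end Pool.Agent.Results.MP_6d0ce9_ag.BlochBeilinson
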