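import Pool.Agent.KS6_13.CP.Main

/-!
# Motivic t-structures in characteristic `p`

Let `k` be a finite field of characteristic `p`. We show that the following are equivalent.

(1) The answer to the question is positive for all fields of characteristic `p`: for every such
field `K`, `DM_c(K)` has a non-degenerate t-structure compatible with the tensor product, for which
the realisations `R_ℓ` are t-exact for all `ℓ ≠ p`.

(2) For a single field `K` of characteristic `p` and a single `ℓ`, `DM_c(K)` has a
non-degenerate t-structure compatible with the tensor product, for which `R_ℓ` is t-exact.

(3) All the realisation functors `R_ℓ` on `DM_c(k)` are faithful.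

(4) One of the realisation functors `R_ℓ` on `DM_c(k)` is faithful.

(5) The category `DM_c(k)` is abelian.

(6) Every morphism in `DM_c(k)` has a kernel.

(7) Every morphism `f` in `DM_c(k)` is regular, `f h f = f` for some `h`.

(8) For the Chow motives `X` over `k`: `Hom(1, X[m]) = 0` for `m ≠ 0` (Parshin's conjecture), and every
nonzero morphism `g : X → 1` is numerically nontrivial (rational and numerical equivalence
agree).

So in characteristic `p` the question, for all fields and all `ℓ`, is whether the triangulated category
`DM_c(F_p)` is abelian, or whether one `ℓ`-adic realisation is faithful on it; and the
question for one prime `ℓ` and one field, say an algebraically closed field of large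
transcendence degree, is equivalent to the question for all primes and all fields.

Proof. (7) and (8) are equivalent to the existence of the t-structure for the field `k`, for all
`ℓ`, and also for one `ℓ`, as (7) does not depend on `ℓ` (earlier result `PureCriterion`). By
the result `PrimeFieldsSuffice`, for a set of primes `ℓ`, the existence for one field and for all fields
of characteristic `p` are equivalent. This gives (1), (2), (7), (8).

(4) implies (7): let `R = R_ℓ` be faithful. A Kuenneth projector of the cohomology of a Chow motive `X`
is induced by an endomorphism of `X` (Katz, Messing). The endomorphisms which act as zero on the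
cohomology have nilpotent realisation, so they are nilpotent. So the projectors lift to
idempotents of `X`, and `X` is a direct sum of Chow motives concentrated in one degree. `R` is conservative.
`Hom(1, X[m]) = 0` if `X` is a Chow motive in degree `d > m`, as this holds for the realisations. Since rational
and homological equivalence agree on `X[d]`, conservativity shows that they
agree with numerical equivalence. The criterion gives the t-structure.

(7) implies (3): the realisations are conservative. If `R(f) = 0` and `f h f = f`, the image of the
idempotent `f h` has zero realisation, so it is zero, and `f = 0`.

(7) implies (5): the kernel of `f` is the image of the idempotent `1 - f h`; monomorphisms and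
epimorphisms split. (6) implies (7): in a triangulated category monomorphisms split. So `X` is the
direct sum of the kernel of `f : X → Y` and some `X'`, and `f` on `X'` is a monomorphism; it
splits as well.
-/

set_option autoImplicit false

open CategoryTheory Limits

universe u v₁ v₂ u₁ u₂ w

namespace Pool.Agent.Results.MP_6d0ce9_ag.CharacteristicP

open Pool.Agent.KS6_13.PF Pool.Agent.KS6_13.CP

/-- **Characteristic `p`.** Let `k` be a finite field of characteristic `p`, with the Frobenius `Fr`
and the Chow motives `𝒞` over `k`. The following are equivalent: the motives over every field of
characteristic `p` have a motivic t-structure; there is such a t-structure for one field and one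
`ℓ`; all `R_ℓ` over `k` are faithful; one of them is; the category of motives over `k` is
abelian; it has kernels; all its morphisms are regular; Parshin's conjecture and the
equality of rational and numerical equivalence for the Chow motives over `k`. -/
theorem result {p : ℕ} {Λ : Type w} [Nonempty Λ] (S : System.{u, v₁, v₂, u₁, u₂} p Λ)
    (k : Type u) [Field k] [CharP k p] {𝒞 : ObjectProperty (S.obj k).T}
    {Fr : ∀ X : (S.obj k).T, X ⟶ X} (hk : IsFiniteField (S.obj k) 𝒞 Fr) :
    List.TFAE [
      ∀ (K : Type u) [Field K] [CharP K p], (S.obj K).toRealised.HasMotivicTStructure,
      ∃ (K : Type u) (_ : Field K) (_ : CharP K p) (ℓ : Λ), HasTStructureAt (S.obj K) ℓ,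
      ∀ ℓ : Λ, ((S.obj k).R ℓ).Faithful,
      ∃ ℓ : Λ, ((S.obj k).R ℓ).Faithful,
      IsAbelianCat (S.obj k).T,
      HasKernels (S.obj k).T,
      IsRegularCat (S.obj k).T,
      ParshinRatNum 𝒞] :=
  tfae S k hk

end Pool.Agent.Results.MP_6d0ce9_ag.CharacteristicP
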