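import Pool.Agent.KS6_19.GF.TStruct
import Pool.Agent.KS6_19.GF.Convert

/-!
# MP_6d0ce9_ag : mixed motives over global function fields

Let `K` be a global function field: the function field of a curve over the finite field `k` with `p ^ e`
elements. Let `DM` be the thick triangulated tensor subcategory of `DM_c(K)` (coefficients in `ℚ`)
generated by the motives `M(A ×_κ K')(i)` for all integers `i`, all finite extensions `K'` of `K`, `κ` the
field of constants of `K'`, and all abelian varieties `A` over `κ` which are products of any number of

* elliptic curves, supersingular abelian varieties, and ordinary abelian varieties for which the real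
  numbers `z ^ m + (q / z) ^ m` (`z` a Frobenius eigenvalue) lie in Galois extensions of `ℚ` with one place
  over `p` and cyclic Sylow `2`-groups (`RealFieldsOnePlace`; for example ordinary abelian surfaces
  with `p` not split in the real quadratic field), or
* (`p` odd) Jacobian varieties of the curves `z ^ (p ^ r) - z = a x + b / x + c` (`IsKloosterman`).

**Theorem.** The motivic t-structure exists on `DM`. It is non-degenerate and bounded, compatible with
the tensor product, and for every `ℓ ≠ p` the `ℓ`-adic realisation is conservative and t-exact. There
are no extensions of degree `≥ 2` between objects of the heart, there are nontrivial extensions of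
a pure object of weight `v` by one of weight `w` only for `v - w = 1` or `2`, pure objects are semisimple,
and each object of the heart has a weight filtration. (The heart is not semisimple:
`Ext^1(ℚ, ℚ(1)) = K^* ⊗ ℚ`, and `Ext^1(ℚ, M) = A(K) ⊗ ℚ` for the motive `M` with realisation `V_ℓ(A)`.)

The theorem below is more general: `K` is a field finitely generated of transcendence degree `d` over
`k`, `W` is a set of pairs `x = (X, i)` of smooth projective schemes over `K` and integers (closed under
products, disjoint unions and products with projective spaces), `obj x = M(X)(i)[2 i]` and `DM` is the thick
subcategory generated by them; `D ℓ` and `E ℓ` are the direct limits of the categories `D^b_c(U, ℚ_ℓ)` and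
`D^b_c(U ⊗ k^{alg}, ℚ_ℓ) ⊗ Ω`, for the open subschemes `U` of a model of `K` over `k`, `R ℓ : DM ⥤ D ℓ` is the
realisation (the functor `D ℓ ⥤ D^b_c(K, ℚ_ℓ)` is t-exact and conservative) and `F ℓ : D ℓ ⥤ E ℓ` the
pull-back, and `fr` is the operation of the Frobenius of `k`. The hypothesis `hG` (`IsGeometric`) consists of
known properties of these data, and of the assumption that the products `X × Y` for members `(X, i)` and
`(Y, j)` of `W` have models over all small open `U` in the class `InClass` of schemes over `k`: the class
generated, by direct summands of motives and localisation triples, from the smooth projective schemes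
which over a finite extension of `k` are disjoint unions of products of abelian varieties of one of the
two kinds above with an arbitrary curve or a point (`IsBase`). For `DM` as above the models are open
subschemes, complements of finitely many fibres, of disjoint unions of schemes `A × C`, with `C` a smooth
projective curve. Also `d = 2` is possible: let `S` be a surface such as `E × C`, with `C` an arbitrary curve and
`E` an elliptic curve over `k`, or an abelian surface of the first kind or its Kummer surface, or `C × ℙ^1`,
let `K` be the function field of `S`, and let `DM` be generated by the constant motives `M(A × K)(i)` (with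
`IsOnePlace` or, for `C × ℙ^1`, one of the two kinds): the models are the schemes `A × U`, with `U` open in `S`,
and `S ∖ U` consists of arbitrary curves and points. Then the heart has cohomological dimension two (the
class of the generic point of `E × E'` in `CH_0(E × E' × K)`, minus its components of positive dimension, is
a nonzero element of an `Ext^2`).

Proof. 1. For a product `X` of the abelian varieties and a curve the theorems `tate_onePlace` and
`tate_kloosterman` of helper5 (the slopes of the first cohomology group of a curve lie in an
interval of length one) imply that all Frobenius invariant classes of `X` are linear combinations of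
products of divisors. 2. With the semisimplicity of Frobenius, the nilpotence of homologically trivial
correspondences, and the vanishing of the `K`-theory of finite fields (Quillen) this gives the conjectures
of Tate, Beilinson and Parshin for `X` (`tb_base`), and by localisation for all schemes in the class.
3. So the morphisms between shifts of direct summands of `obj x` and `obj y` are a rational structure on
the Frobenius invariant morphisms of the realisations over `k^{alg}` (`Compares`). 4. Between pure objects
there are no morphisms of negative degree, and those of different weights vanish (Deligne); a morphism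
`f` of pure objects of the same weight is geometrically regular, `f g f = f` for some `g` (Deligne), and by
semisimplicity at the eigenvalue one and rationality, `g` can be chosen in `DM`. 5. Iterated extensions of
shifted pure objects can therefore be sorted by degrees, which gives the truncations.
-/

set_option autoImplicit false

open CategoryTheory Limits MonoidalCategory Triangulated Pretriangulated

namespace Pool.Agent.Results.MP_6d0ce9_ag.GlobalFunctionFields

open Pool.Agent.KS6_19.GF Pool.Agent.W495.FM

universe v u v' u' v'' u''

/-- **The motivic t-structure** exists on the category of motives over a finitely generated field `K`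
of characteristic `p` generated by smooth projective schemes, the products of which have models
in the class of schemes over the finite field `k` generated by products of an arbitrary curve with
elliptic curves, supersingular abelian varieties and ordinary abelian varieties whose real fields have one
place over `p`, or with Jacobian varieties of Kloosterman curves. This applies to all potentially
constant motives of such abelian varieties over every global function field `K`. -/
theorem result (p : ℕ) [Fact p.Prime] (e : ℕ) (he : 0 < e)
    (Ω : Type) [Field Ω] [IsAlgClosed Ω] [CharZero Ω] (V : Type)
    (L : Type) [Nonempty L] (H : L → Homology Ω V) (hH : ∀ ℓ, IsHomology (H ℓ))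
    (DM : Type u) [Category.{v} DM] [HasZeroObject DM] [HasShift DM ℤ] [Preadditive DM]
    [Linear ℚ DM] [∀ n : ℤ, (shiftFunctor DM n).Additive] [Pretriangulated DM]
    [IsTriangulated DM] [IsIdempotentComplete DM] [MonoidalCategory DM]
    (D : L → Type u') [∀ ℓ, Category.{v'} (D ℓ)] [∀ ℓ, HasZeroObject (D ℓ)]
    [∀ ℓ, HasShift (D ℓ) ℤ] [∀ ℓ, Preadditive (D ℓ)]
    [∀ ℓ, ∀ n : ℤ, (shiftFunctor (D ℓ) n).Additive] [∀ ℓ, Pretriangulated (D ℓ)]
    [∀ ℓ, IsTriangulated (D ℓ)] [∀ ℓ, MonoidalCategory (D ℓ)]
    (R : ∀ ℓ, DM ⥤ D ℓ) [∀ ℓ, (R ℓ).CommShift ℤ] [∀ ℓ, (R ℓ).IsTriangulated]
    [∀ ℓ, (R ℓ).Monoidal] (s : ∀ ℓ, TStructure (D ℓ))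
    (hs : ∀ ℓ, Pool.Agent.W492.MT.TensorExact (s ℓ))
    (E : L → Type u'') [∀ ℓ, Category.{v''} (E ℓ)] [∀ ℓ, Preadditive (E ℓ)]
    [∀ ℓ, Linear Ω (E ℓ)] (F : ∀ ℓ, D ℓ ⥤ E ℓ) [∀ ℓ, (F ℓ).Additive]
    (fr : ∀ (ℓ : L) (X Y : D ℓ), ((F ℓ).obj X ⟶ (F ℓ).obj Y) → ((F ℓ).obj X ⟶ (F ℓ).obj Y))
    (W : Type) (obj : W → DM) (d : ℤ)
    (hG : IsGeometric R s obj H (fun ℓ => InClass p e (H ℓ)) F fr d) :
    ∃ t : TStructure DM, IsMotivic R s obj d t :=
  exists_motivic hs hG hH fun ℓ _ hX => tb_class he (hH ℓ) hX

end Pool.Agent.Results.MP_6d0ce9_ag.GlobalFunctionFields
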