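import Pool.Agent.KS6_13.PF.Main

/-!
# Motivic t-structures: only the characteristic matters

Let `p` be a prime or `0`. We show: if a t-structure as in the problem exists on `DM_c(k)` for one
field `k` of characteristic `p`, for instance for the prime field or its algebraic closure, then it
exists on `DM_c(K)` for every field `K` of characteristic `p`. So the question for all fields is the
question for the fields `ℚ` and `F_p`, for all primes `p`.

The passage from `K` to fields which are not larger is in the earlier result `TranscendenceDegree`.
What is new is the passage from small to large fields. The structure `System p Λ` lists the formal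
properties which are used of the categories `DM_c(k)` and of their `ℓ`-adic realisations, for all fields
`k` of characteristic `p` and all primes `ℓ ≠ p` (the set `Λ`). They hold for the following
reasons.

* `Motives`: `T = DM_c(k)`, or the category of the objects with a dual in `DM_c(V)` for a smooth
  connected `V`, whose realisations are the complexes with lisse cohomology sheaves. It is a
  `ℚ`-linear symmetric tensor triangulated category with `End(1) = ℚ`, idempotents split, all
  objects have duals.
* `map`, `faithful`, `specialises`, `algebraic`, `finitelyGenerated`: base change, as in
  `TranscendenceDegree` (structure `FieldMotives`).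
* `IsGeometric`, for an algebraically closed field `k`: `setup` and `lefschetz` are the properties of
  Chow motives (direct summands of the `M(X)(n)[2n]` with `X` smooth and projective) used in the earlier
  result `PureCriterion`: orthogonality, generation, duality, finiteness of the trace forms, and
  the hard Lefschetz theorem. `semisimple`: morphisms of complexes of vector spaces which are zero on the
  cohomology are zero in the derived category.
* `SpreadsOut`, for algebraically closed fields `k ⊆ K`: `DM_c(K)` is the filtered colimit of the
  `DM_c(V)` for the smooth connected `V` over `k` with a `K`-point over the generic point, and similarly for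
  Chow motives. `ModelData` is such a `V` with a rational point `s`; `pull`, `push` are `π^*`, `π_*` for
  `π : V → Spec k`, `fib` is `s^*`, and `gen` is the inverse image along `Spec K → V`.
  `Model`: the realisations commute with these functors, `π_*` is left t-exact, and the fibre
  functors at the points of `V` are exact and faithful on lisse sheaves; these are `fib_deg`, ...,
  `gen_faithful`.
* `FixedPart`, for the Chow motives over `V`: this is the theorem of the fixed part (Deligne). Let `f : Y → V` be smooth and
  projective of relative dimension `d`. There are a smooth projective `W` over `k`, an open subset `Y'` and
  an alteration `a : Y' → Y ×_V Y`. By Deligne's theory of weights the map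
  `H^{2d}(W, ℚ_ℓ(d)) → H^{2d}(Y_s × Y_s, ℚ_ℓ(d))`, restriction to `Y'`, direct image under `a` and
  restriction to the fibre, has as image the invariants of the fundamental group. The
  projector on the cohomology in degrees `≥ n` is invariant. The map is the action of the correspondence
  `q : M(Y) ⊗ π^* Q → M(Y)` given by `Y'`, where `Q = M(W)(d)[2d]`, and it does not depend on `ℓ`.

Proof. By the earlier results and `K`-algebraic closures it remains to go from an algebraically
closed field `k` to an algebraically closed field `K` which contains it. Let `t` be the t-structure
over `k`, and let `V` be a model.

(1) *Orthogonality.* If `s^* X ≤ a`, `B ≤ b` and `s^* Y ≥ c` with `a + b < c`, every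
`X ⊗ π^* B → Y` is zero: it corresponds to `B → π_* (X^∨ ⊗ Y)`, whose target is `≥ c - a`.

(2) *Faithfulness.* If `s^* X ≤ 0`, `s^* Y ≥ 0`, the realisation is faithful on morphisms `X → Y`,
since they correspond to morphisms `1 → π_* (X^∨ ⊗ Y)` from an object `≤ 0` to an object `≥ 0`.

(3) *Nilpotence.* Let `u` be an endomorphism of `X` with `R_ℓ(s^* u) = 0`. A power `w` of `u` has
realisation zero over `V`. Then `1 → π_*(X^∨ ⊗ X)` comes from `B = τ^{≤ -1} π_*(X^∨ ⊗ X)`, so that `w` is
a composition `X → X ⊗ π^* B → X`, and `w^m` is a composition `X → X ⊗ π^* B^{⊗ m} → X`,
whose second morphism is zero for large `m` by (1). So `u` is nilpotent. In particular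
the realisations are conservative over `V`, hence over `K`.

(4) *Kuenneth.* Let `X` be a Chow motive over `V`. Over `k` the t-structure splits Chow motives
(Deligne), so there is an idempotent `e` of `s^* X` whose realisation is the projector on the
degrees `≥ n`. By the theorem of the fixed part this projector is the action of
a class `y : 1 → R_ℓ Q`. Since homological and numerical equivalence agree over `k`, the
morphism `Q → s^* (X^∨ ⊗ X)` has a quasi-inverse on the parts of degree zero, and `y` can be replaced
by a morphism `y' : 1 → Q` of motives. It acts on `X` itself, not only on `s^* X`. The
resulting endomorphism of `X` is idempotent modulo the ideal of (3), which is nil, so that it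
lifts to an idempotent of `X`, and `X` is the direct sum of a part in degrees `≥ n` and one in degrees
`< n`. Hence Chow motives over `K` have Kuenneth decompositions.

(5) By (1), (2), (3), (4) the criterion of `PureCriterion` for the existence of the t-structure is
satisfied over `K`.
-/

set_option autoImplicit false

universe u v₁ v₂ u₁ u₂ w

namespace Pool.Agent.Results.MP_6d0ce9_ag.PrimeFieldsSuffice

open Pool.Agent.KS6_13.PF

/-- **Only the characteristic matters.** If the motives over one field `k` of characteristic `p` have
a motivic t-structure, so have the motives over every field `K` of characteristic `p`. -/
theorem result {p : ℕ} {Λ : Type w} [Nonempty Λ] (S : System.{u, v₁, v₂, u₁, u₂} p Λ)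
    (k K : Type u) [Field k] [CharP k p] [Field K] [CharP K p]
    (h : (S.obj k).toRealised.HasMotivicTStructure) :
    (S.obj K).toRealised.HasMotivicTStructure :=
  S.hasMotivicTStructure k K h

end Pool.Agent.Results.MP_6d0ce9_ag.PrimeFieldsSuffice
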